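import Pool.Agent.helper91.HZ.Spec

/-!
# Row JAC of project hz (MP_2e0e07_nt, owner helper91)
-/

namespace Pool.Agent.HZ

open MvPolynomial in
/-- The chain rule. -/
theorem JAC_chain {k : Type} [Field k] {N : ℕ} (v : Fin N → MvPolynomial (Fin N) k) (i : Fin N)
    (R : MvPolynomial (Fin N) k) :
    pderiv i (aeval v R) = ∑ b, aeval v (pderiv b R) * pderiv i (v b) := by
  induction R using MvPolynomial.induction_on with
  | C a => simp
  | add p q hp hq =>
    rw [map_add, map_add, hp, hq, ← Finset.sum_add_distrib]
    refine Finset.sum_congr rfl (fun b _ => ?_)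
    rw [map_add, map_add, add_mul]
  | mul_X p c hp =>
    rw [map_mul, aeval_X, pderiv_mul, hp]
    have h1 : ∀ b : Fin N, aeval v (pderiv b (p * X c)) * pderiv i (v b) =
        aeval v (pderiv b p) * pderiv i (v b) * v c +
          (if b = c then aeval v p * pderiv i (v b) else 0) := by
      intro b
      rw [pderiv_mul, map_add, map_mul, map_mul, aeval_X, pderiv_X, Pi.single_apply]
      by_cases hbc : b = c
      · subst hbc
        simp
        ring
      · have hcb : ¬ c = b := fun h => hbc h.symm
        simp [hbc, hcb]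
        ring
    rw [Finset.sum_congr rfl (fun b _ => h1 b), Finset.sum_add_distrib, Finset.sum_ite_eq',
      if_pos (Finset.mem_univ c), Finset.sum_mul]

open MvPolynomial in
/-- all partial derivatives vanish -/
theorem JAC_const {k : Type} [Field k] [CharZero k] {N : ℕ} (R : MvPolynomial (Fin N) k)
    (h : ∀ i, pderiv i R = 0) : R = C (coeff 0 R) := by
  ext m
  rw [coeff_C]
  split_ifs with hm
  · rw [hm]
  · obtain ⟨i, hi⟩ : ∃ i, m i ≠ 0 := by
      by_contra hcon
      push Not at hcon
      apply hm
      ext i
      rw [hcon i]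
      rfl
    have h1 := coeff_pderiv (i := i) R (m - Finsupp.single i 1)
    rw [h i, coeff_zero] at h1
    have h2 : m - Finsupp.single i 1 + Finsupp.single i 1 = m := by
      apply tsub_add_cancel_of_le
      rw [Finsupp.single_le_iff]
      omega
    rw [h2] at h1
    have h3 : ∀ c : ℕ, (c : k) + 1 ≠ 0 := fun c => Nat.cast_add_one_ne_zero c
    exact (mul_eq_zero.1 h1.symm).resolve_right (h3 _)

open MvPolynomial in
theorem JAC_deg {k : Type} [Field k] {N : ℕ} (R : MvPolynomial (Fin N) k) (i : Fin N) (n : ℕ)
    (h : R.totalDegree ≤ n + 1) : (pderiv i R).totalDegree ≤ n := by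
  rw [totalDegree, Finset.sup_le_iff]
  intro m hm
  rw [mem_support_iff, coeff_pderiv] at hm
  have h1 : coeff (m + Finsupp.single i 1) R ≠ 0 := left_ne_zero_of_mul hm
  have h2 := le_totalDegree (mem_support_iff.2 h1)
  rw [Finsupp.sum_add_index' (fun _ => rfl) (fun _ _ _ => rfl), Finsupp.sum_single_index rfl] at h2
  omega

open MvPolynomial in
/-- polynomials with an invertible Jacobian matrix at `0` are algebraically independent -/
theorem JAC_indep {k : Type} [Field k] [CharZero k] {N : ℕ} (v : Fin N → MvPolynomial (Fin N) k)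
    (hdet : (Matrix.of fun i b => pderiv i (v b)).det ≠ 0) (n : ℕ) :
    ∀ R : MvPolynomial (Fin N) k, R.totalDegree ≤ n → aeval v R = 0 → R = 0 := by
  induction n with
  | zero =>
    intro R hR h
    have h1 := (totalDegree_eq_zero_iff_eq_C).1 (Nat.le_zero.1 hR)
    rw [h1, aeval_C] at h
    have h2 : coeff 0 R = 0 := by
      have := (map_eq_zero_iff (algebraMap k (MvPolynomial (Fin N) k)) (C_injective (Fin N) k)).1 h
      exact this
    rw [h1, h2, C_0]
  | succ n ih =>
    intro R hR h
    have hy : (fun b => aeval v (pderiv b R)) = 0 := by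
      apply Matrix.eq_zero_of_mulVec_eq_zero hdet
      funext i
      have h1 := JAC_chain v i R
      rw [h, map_zero] at h1
      rw [Matrix.mulVec, dotProduct]
      simp only [Matrix.of_apply, Pi.zero_apply]
      rw [h1]
      exact Finset.sum_congr rfl (fun b _ => mul_comm _ _)
    have hp : ∀ b, pderiv b R = 0 := fun b => ih _ (JAC_deg R b n hR) (congrFun hy b)
    have h1 := JAC_const R hp
    rw [h1, aeval_C] at h
    have h2 : coeff 0 R = 0 :=
      (map_eq_zero_iff (algebraMap k (MvPolynomial (Fin N) k)) (C_injective (Fin N) k)).1 h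
    rw [h1, h2, C_0]

open MvPolynomial in
theorem JAC_alg {k : Type} [Field k] [CharZero k] {N : ℕ} (v : Fin N → MvPolynomial (Fin N) k)
    (hdet : (Matrix.of fun i b => pderiv i (v b)).det ≠ 0) (i : Fin N) :
    IsAlgebraic (Algebra.adjoin k (Set.range v)) (X i : MvPolynomial (Fin N) k) := by
  have hind : AlgebraicIndependent k v := by
    rw [algebraicIndependent_iff]
    intro R hR
    exact JAC_indep v hdet R.totalDegree R le_rfl hR
  have htb : IsTranscendenceBasis k v := by
    apply hind.isTranscendenceBasis_of_trdeg_le_of_finite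
    rw [MvPolynomial.trdeg_of_isDomain]
    simp
  have := htb.isAlgebraic
  exact Algebra.IsAlgebraic.isAlgebraic _

/-- algebraic over a larger subalgebra -/
theorem JAC_mono {k A : Type} [Field k] [CommRing A] [Algebra k A] (S T : Subalgebra k A) (h : S ≤ T)
    {x : A} (hx : IsAlgebraic S x) : IsAlgebraic T x := by
  obtain ⟨P, hP0, hP⟩ := hx
  refine ⟨P.map (Subalgebra.inclusion h : S →+* T), ?_, ?_⟩
  · intro h0
    apply hP0
    exact Polynomial.map_injective (Subalgebra.inclusion h : S →+* T) (Subalgebra.inclusion_injective h)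
      (h0.trans (Polynomial.map_zero _).symm)
  · rw [Polynomial.aeval_def, Polynomial.eval₂_map]
    rw [Polynomial.aeval_def] at hP
    exact hP

open MvPolynomial in
theorem JAC : JAC_stmt := by
  intro k _ _ N M u hlin i
  classical
  set rows : Fin N → Fin M → k := fun i a => eval (fun _ => (0 : k)) (pderiv i (u a)) with hrows
  have hinj : Function.Injective (Fintype.linearCombination k rows) :=
    hlin.fintypeLinearCombination_injective
  obtain ⟨g, hg⟩ := LinearMap.exists_leftInverse_of_injective _ (LinearMap.ker_eq_bot.2 hinj)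
  have hg1 : ∀ i, g (rows i) = Pi.single i 1 := by
    intro i
    have h1 : rows i = Fintype.linearCombination k rows (Pi.single i 1) := by
      rw [Fintype.linearCombination_apply_single, one_smul]
    rw [h1]
    exact LinearMap.congr_fun hg _
  set w : Fin M → Fin N → k := fun a b => g (Pi.single a 1) b with hw
  have hg2 : ∀ i b, ∑ a, w a b * rows i a = (Pi.single i 1 : Fin N → k) b := by
    intro i b
    rw [← hg1 i]
    have h2 : rows i = ∑ a, rows i a • (Pi.single a 1 : Fin M → k) := by
      funext c
      simp [Finset.sum_apply, Pi.single_apply]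
    conv_rhs => rw [h2]
    rw [map_sum, Finset.sum_apply]
    refine Finset.sum_congr rfl (fun a _ => ?_)
    rw [map_smul, Pi.smul_apply, smul_eq_mul, mul_comm]
  set v : Fin N → MvPolynomial (Fin N) k := fun b => ∑ a, C (w a b) * u a with hv
  have hpd : ∀ i b, eval (fun _ => (0 : k)) (pderiv i (v b)) = (Pi.single i 1 : Fin N → k) b := by
    intro i b
    rw [← hg2 i b, hv]
    simp only
    rw [map_sum, map_sum]
    refine Finset.sum_congr rfl (fun a _ => ?_)
    rw [pderiv_C_mul, map_mul, eval_C]
  have hdet : (Matrix.of fun i b => pderiv i (v b)).det ≠ 0 := by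
    intro h0
    have h1 : (eval (fun _ => (0 : k))) (Matrix.of fun i b => pderiv i (v b)).det = 1 := by
      rw [RingHom.map_det]
      have h2 : (eval (fun _ => (0 : k))).mapMatrix (Matrix.of fun i b => pderiv i (v b)) = 1 := by
        ext i b
        rw [RingHom.mapMatrix_apply, Matrix.map_apply, Matrix.of_apply, hpd, Matrix.one_apply,
          Pi.single_apply]
        by_cases h : i = b
        · rw [if_pos h, if_pos h.symm]
        · rw [if_neg h, if_neg (fun h3 => h h3.symm)]
      rw [h2, Matrix.det_one]
    rw [h0, map_zero] at h1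
    exact zero_ne_one h1
  refine JAC_mono _ _ ?_ (JAC_alg v hdet i)
  apply Algebra.adjoin_le
  rintro _ ⟨b, rfl⟩
  rw [hv]
  simp only
  apply Subalgebra.sum_mem
  intro a _
  apply Subalgebra.mul_mem
  · exact Subalgebra.algebraMap_mem _ (w a b)
  · exact Algebra.subset_adjoin ⟨a, rfl⟩

end Pool.Agent.HZ
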